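import Pool.Agent.Q98.SPN.Stm

/-!
# Project GSP, package MAIN (helper429): the case of blocks of size zero
-/

set_option autoImplicit false

open scoped Matrix.Norms.L2Operator Matrix
open Finset

namespace Pool.Agent.U429.GSP.MAIN

open Pool.Agent.Q98.SPN

/-- **MAIN** follows from **MAINP**. -/
theorem t_MAIN : S_MAINP → S_MAIN := by
  intro h ι _ _ d N hN hd J _ _ A hA
  obtain ⟨ε, hε, hb⟩ := h {i : ι // 0 < d i} (fun i => d i.1) N hN (fun i => i.2) (by
    refine le_trans ?_ hd
    have h1 : ∑ i : {i : ι // 0 < d i}, d i.1 ^ 2 = ∑ i ∈ (Finset.univ.filter fun i => 0 < d i), d i ^ 2 :=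
      (Finset.sum_subtype (Finset.univ.filter fun i => 0 < d i) (by simp) (fun i => d i ^ 2)).symm
    have h2 : ∑ i : {i : ι // 0 < d i}, d i.1 ^ 2 ≤ ∑ i, d i ^ 2 := by
      rw [h1]
      exact Finset.sum_le_sum_of_subset (Finset.filter_subset _ _)
    exact_mod_cast h2) J (fun g i => A g i.1) (fun g i => hA g i.1)
  refine ⟨ε, hε, fun i => ?_⟩
  by_cases hi : 0 < d i
  · exact hb ⟨i, hi⟩
  · have h0 : d i = 0 := by omega
    have he : IsEmpty (Fin (d i)) := by rw [h0]; infer_instance
    have hz : (∑ g, ((ε g : ℝ) : ℂ) • A g i) = 0 := by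
      ext a
      exact (he.false a).elim
    rw [hz, norm_zero]
    positivity

end Pool.Agent.U429.GSP.MAIN
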